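import Mathlib
import Pool.Agent.Helper43.RK.StT

/-!
# Project RK, module FG: finiteness of `G` from finiteness of `G0`
-/

set_option autoImplicit false

namespace Pool.Agent.Helper4.RK

open Pool.Agent.Helper43.RK

open scoped Pointwise

section General

variable {G : Type} [Group G]

/-- if `x` conjugates `S` into the closure, it conjugates the closure into itself -/
theorem conj_closure {S : Set G} {x : G}
    (h : ∀ s ∈ S, x * s * x⁻¹ ∈ Subgroup.closure S) :
    ∀ y ∈ Subgroup.closure S, x * y * x⁻¹ ∈ Subgroup.closure S := by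
  intro y hy
  have hle : Subgroup.closure S ≤ (Subgroup.closure S).comap (MulAut.conj x).toMonoidHom := by
    rw [Subgroup.closure_le]
    intro s hs
    have h1 := h s hs
    simpa [Subgroup.mem_comap, MulAut.conj_apply] using h1
  have h2 := hle hy
  simpa [Subgroup.mem_comap, MulAut.conj_apply] using h2

/-- if `x` conjugates `S` into the closure, it normalizes the finite closure -/
theorem norm_closure {S : Set G} (hfin : Finite (Subgroup.closure S)) {x : G}
    (h : ∀ s ∈ S, x * s * x⁻¹ ∈ Subgroup.closure S) :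
    x ∈ Subgroup.normalizer ((Subgroup.closure S : Subgroup G) : Set G) := by
  have : Finite ((Subgroup.closure S : Subgroup G) : Set G) := hfin
  apply Subgroup.mem_normalizer_fintype
  exact conj_closure h

/-- conjugation of a join of a normal subgroup and a cyclic subgroup -/
theorem norm_sup {H : Subgroup G} [hH : H.Normal] {t x : G}
    (hfin : Finite (H ⊔ Subgroup.zpowers t : Subgroup G))
    (h : x * t * x⁻¹ ∈ H ⊔ Subgroup.zpowers t) :
    x ∈ Subgroup.normalizer ((H ⊔ Subgroup.zpowers t : Subgroup G) : Set G) := by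
  have : Finite ((H ⊔ Subgroup.zpowers t : Subgroup G) : Set G) := hfin
  apply Subgroup.mem_normalizer_fintype
  intro y hy
  have hle : (H ⊔ Subgroup.zpowers t) ≤
      (H ⊔ Subgroup.zpowers t).comap (MulAut.conj x).toMonoidHom := by
    rw [sup_le_iff]
    constructor
    · intro z hz
      have h1 : x * z * x⁻¹ ∈ H := hH.conj_mem z hz x
      have h2 : x * z * x⁻¹ ∈ H ⊔ Subgroup.zpowers t := Subgroup.mem_sup_left h1
      simpa [Subgroup.mem_comap, MulAut.conj_apply] using h2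
    · rw [Subgroup.zpowers_le]
      simpa [Subgroup.mem_comap, MulAut.conj_apply] using h
  have h2 := hle hy
  simpa [Subgroup.mem_comap, MulAut.conj_apply] using h2

/-- the join of a finite normal subgroup and a finite cyclic subgroup is finite -/
theorem fin_sup {H : Subgroup G} [hH : H.Normal] (hf : Finite H) {t : G} (N : ℕ) (hN : 0 < N)
    (ht : t ^ N = 1) : Finite (H ⊔ Subgroup.zpowers t : Subgroup G) := by
  have h1 : ((H ⊔ Subgroup.zpowers t : Subgroup G) : Set G) =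
      (H : Set G) * (Subgroup.zpowers t : Set G) := Subgroup.normal_mul H (Subgroup.zpowers t)
  have h2 : (H : Set G).Finite := Set.toFinite _
  have h3 : (Subgroup.zpowers t : Set G).Finite :=
    finite_zpowers.mpr (isOfFinOrder_iff_pow_eq_one.mpr ⟨N, hN, ht⟩)
  have h4 : ((H ⊔ Subgroup.zpowers t : Subgroup G) : Set G).Finite := by
    rw [h1]
    exact h2.mul h3
  exact h4.to_subtype

/-- an element is in a subgroup if its fourth power and an odd power are -/
theorem mem_of_four_odd {H : Subgroup G} {g : G} {β : ℕ} (hβ : β % 2 = 1) (h4 : g ^ 4 ∈ H)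
    (hb : g ^ β ∈ H) : g ∈ H := by
  have h : β % 4 = 1 ∨ β % 4 = 3 := by omega
  rcases h with h | h
  · obtain ⟨m, hm⟩ : ∃ m, β = 4 * m + 1 := ⟨β / 4, by omega⟩
    have h1 : g = ((g ^ 4) ^ m)⁻¹ * g ^ β := by
      rw [eq_inv_mul_iff_mul_eq, hm, ← pow_mul, ← pow_succ]
    rw [h1]
    exact H.mul_mem (H.inv_mem (H.pow_mem h4 m)) hb
  · obtain ⟨m, hm⟩ : ∃ m, β = 4 * m + 3 := ⟨β / 4, by omega⟩
    have h1 : g = (g ^ 4) ^ (m + 1) * (g ^ β)⁻¹ := by
      rw [eq_mul_inv_iff_mul_eq, hm, ← pow_mul, ← pow_succ']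
      congr 1
    rw [h1]
    exact H.mul_mem (H.pow_mem h4 (m + 1)) (H.inv_mem hb)

end General

theorem hFG : StFG := by
  intro n β hn hβ G _ g a t hC hgen R _ _ D ha hw hY hcl hcj hfin
  -- the subgroup of all `a r`
  have hU : ∀ x ∈ Subgroup.closure (Set.range (cj a t)), ∃ r, x = D.a r := by
    intro x hx
    induction hx using Subgroup.closure_induction with
    | mem x hx =>
      obtain ⟨i, rfl⟩ := hx
      exact hcj i
    | one => exact ⟨0, D.a0.symm⟩
    | mul x y _ _ hx hy =>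
      obtain ⟨r, rfl⟩ := hx
      obtain ⟨s, rfl⟩ := hy
      exact ⟨r + s, (D.a_add r s).symm⟩
    | inv x _ hx =>
      obtain ⟨r, rfl⟩ := hx
      exact ⟨r, D.ainv r⟩
  -- the fourth power
  have hconj : ∀ i : ℤ, (g ^ 4)⁻¹ * cj a t i * g ^ 4 = cj a t (2 * i) := by
    intro i
    have e1 : ∀ j : ℤ, (g ^ 4)⁻¹ * t ^ j * g ^ 4 = t ^ (2 * j) := by
      intro j
      have h1 : (g ^ 4)⁻¹ * t ^ j * g ^ 4 = ((g ^ 4)⁻¹ * t * g ^ 4) ^ j := by
        have := conj_zpow (i := j) (a := (g ^ 4)⁻¹) (b := t)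
        rw [inv_inv] at this
        exact this.symm
      rw [h1, hC.ft, ← zpow_natCast, ← zpow_mul]
      norm_num
    have e2 : (g ^ 4)⁻¹ * a * g ^ 4 = a := by
      rw [mul_assoc, ← hC.fa, inv_mul_cancel_left]
    have e3 := e1 (-i)
    have e4 := e1 i
    unfold cj
    calc (g ^ 4)⁻¹ * (t ^ (-i) * a * t ^ i) * g ^ 4
        = ((g ^ 4)⁻¹ * t ^ (-i) * g ^ 4) * ((g ^ 4)⁻¹ * a * g ^ 4) *
          ((g ^ 4)⁻¹ * t ^ i * g ^ 4) := by group
      _ = t ^ (-(2 * i)) * a * t ^ (2 * i) := by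
        rw [e3, e4, e2]
        congr 3
        ring
  have hfa : ∀ r, ∃ r', (g ^ 4)⁻¹ * D.a r * g ^ 4 = D.a r' := by
    intro r
    have h4 := conj_closure (S := Set.range (cj a t)) (x := (g ^ 4)⁻¹) (by
      rintro x ⟨i, rfl⟩
      rw [inv_inv, hconj]
      exact Subgroup.subset_closure ⟨_, rfl⟩) (D.a r) (hcl r)
    rw [inv_inv] at h4
    exact hU _ h4
  -- `g ^ 4` commutes with `w`
  have hfw : g ^ 4 * D.w = D.w * g ^ 4 := by
    rw [hw]
    calc g ^ 4 * (g ^ β * a) = g ^ β * (g ^ 4 * a) := by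
          rw [← mul_assoc, ← mul_assoc, ← pow_add, ← pow_add, add_comm]
      _ = g ^ β * a * g ^ 4 := by rw [hC.fa, mul_assoc]
  have hfb : ∀ r, ∃ r', (g ^ 4)⁻¹ * D.b r * g ^ 4 = D.b r' := by
    intro r
    obtain ⟨r', hr'⟩ := hfa r
    refine ⟨r', ?_⟩
    rw [← D.aw r, ← D.aw r', ← hr']
    have h1 : (g ^ 4)⁻¹ * D.w = D.w * (g ^ 4)⁻¹ := by
      rw [inv_mul_eq_iff_eq_mul, ← mul_assoc, hfw, mul_assoc, mul_inv_cancel, mul_one]
    calc (g ^ 4)⁻¹ * (D.w * D.a r * D.w) * g ^ 4
        = ((g ^ 4)⁻¹ * D.w) * D.a r * (D.w * g ^ 4) := by group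
      _ = (D.w * (g ^ 4)⁻¹) * D.a r * (g ^ 4 * D.w) := by rw [h1, hfw]
      _ = D.w * ((g ^ 4)⁻¹ * D.a r * g ^ 4) * D.w := by group
  have haG : ∀ r, D.a r ∈ D.G0 := fun r => Subgroup.subset_closure (Or.inl ⟨r, rfl⟩)
  have hbG : ∀ r, D.b r ∈ D.G0 := fun r => Subgroup.subset_closure (Or.inr ⟨r, rfl⟩)
  -- `G0` is normal
  have hN0 : ∀ x : G, (∀ r, x * D.a r * x⁻¹ ∈ D.G0) → (∀ r, x * D.b r * x⁻¹ ∈ D.G0) →
      x ∈ Subgroup.normalizer (D.G0 : Set G) := by
    intro x h1 h2
    apply norm_closure hfin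
    rintro s (⟨r, rfl⟩ | ⟨r, rfl⟩)
    · exact h1 r
    · exact h2 r
  have hn4 : (g ^ 4)⁻¹ ∈ Subgroup.normalizer (D.G0 : Set G) := by
    apply hN0
    · intro r
      obtain ⟨r', hr'⟩ := hfa r
      rw [inv_inv, hr']
      exact haG r'
    · intro r
      obtain ⟨r', hr'⟩ := hfb r
      rw [inv_inv, hr']
      exact hbG r'
  have hnt : t ∈ Subgroup.normalizer (D.G0 : Set G) := by
    have ht : t = D.Y⁻¹ := by rw [hY, inv_inv]
    apply hN0
    · intro r
      rw [ht, inv_inv, D.aY]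
      exact haG _
    · intro r
      rw [ht, inv_inv, D.bY]
      exact hbG _
  have hnw : D.w ∈ Subgroup.normalizer (D.G0 : Set G) := by
    apply hN0
    · intro r
      rw [D.winv, D.aw]
      exact hbG _
    · intro r
      rw [D.winv, D.bw]
      exact haG _
  have haG0 : a ∈ D.G0 := by
    rw [← ha]
    exact haG 1
  have hna : a ∈ Subgroup.normalizer (D.G0 : Set G) := Subgroup.le_normalizer haG0
  have hgb : g ^ β = D.w * a := by
    rw [hw, mul_assoc, hC.a2, mul_one]
  have hng : g ∈ Subgroup.normalizer (D.G0 : Set G) := by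
    apply mem_of_four_odd hβ
    · have h := Subgroup.inv_mem _ hn4
      rwa [inv_inv] at h
    · rw [hgb]
      exact Subgroup.mul_mem _ hnw hna
  have hG0N : D.G0.Normal := by
    rw [← Subgroup.normalizer_eq_top_iff, eq_top_iff, ← hgen, Subgroup.closure_le]
    rintro x (rfl | rfl | rfl)
    · exact hng
    · exact hna
    · exact hnt
  -- the subgroup `N = G0 <t>`
  obtain ⟨N, hN, htN'⟩ := hC.tfin
  have hNf : Finite (D.G0 ⊔ Subgroup.zpowers t : Subgroup G) :=
    fin_sup hfin N hN htN'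
  have htN : t ∈ D.G0 ⊔ Subgroup.zpowers t :=
    Subgroup.mem_sup_right (Subgroup.mem_zpowers t)
  have haN : a ∈ D.G0 ⊔ Subgroup.zpowers t := Subgroup.mem_sup_left haG0
  have hm4 : (g ^ 4)⁻¹ ∈ Subgroup.normalizer ((D.G0 ⊔ Subgroup.zpowers t : Subgroup G) : Set G) := by
    apply norm_sup hNf
    rw [inv_inv, hC.ft]
    exact Subgroup.pow_mem _ htN 2
  have hmw : (D.w)⁻¹ ∈ Subgroup.normalizer ((D.G0 ⊔ Subgroup.zpowers t : Subgroup G) : Set G) := by
    apply norm_sup hNf
    rw [inv_inv, hw, hC.wt]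
    exact Subgroup.inv_mem _ htN
  have hma : a ∈ Subgroup.normalizer ((D.G0 ⊔ Subgroup.zpowers t : Subgroup G) : Set G) :=
    Subgroup.le_normalizer haN
  have hmg : g ∈ Subgroup.normalizer ((D.G0 ⊔ Subgroup.zpowers t : Subgroup G) : Set G) := by
    apply mem_of_four_odd hβ
    · have h := Subgroup.inv_mem _ hm4
      rwa [inv_inv] at h
    · rw [hgb]
      refine Subgroup.mul_mem _ ?_ hma
      have h := Subgroup.inv_mem _ hmw
      rwa [inv_inv] at h
  have hNN : (D.G0 ⊔ Subgroup.zpowers t : Subgroup G).Normal := by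
    rw [← Subgroup.normalizer_eq_top_iff, eq_top_iff, ← hgen, Subgroup.closure_le]
    rintro x (rfl | rfl | rfl)
    · exact hmg
    · exact hma
    · exact Subgroup.le_normalizer htN
  -- the whole group
  obtain ⟨M, hM, hgM⟩ := hC.gfin
  have hTf : Finite ((D.G0 ⊔ Subgroup.zpowers t) ⊔ Subgroup.zpowers g : Subgroup G) :=
    fin_sup hNf M hM hgM
  have htop : ((D.G0 ⊔ Subgroup.zpowers t) ⊔ Subgroup.zpowers g : Subgroup G) = ⊤ := by
    rw [eq_top_iff, ← hgen, Subgroup.closure_le]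
    rintro x (rfl | rfl | rfl)
    · exact Subgroup.mem_sup_right (Subgroup.mem_zpowers _)
    · exact Subgroup.mem_sup_left haN
    · exact Subgroup.mem_sup_left htN
  rw [htop] at hTf
  exact Finite.of_equiv _ (Subgroup.topEquiv (G := G)).toEquiv

end Pool.Agent.Helper4.RK
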